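import Mathlib
import Pool.Agent.Helper47.Ext.Defs
import Pool.Agent.Helper47.Ext.NoExt

set_option autoImplicit false

namespace Pool.Agent.Results.MP_752b71_an.NoExtension

open scoped Manifold ContDiff Topology
open Set Metric Pool.Agent.Helper47.Ext

/-- There are a proper holomorphic submersion `π : 𝒳 → Δ` with compact connected Kähler fibres, a
pseudoeffective holomorphic line bundle `L` on `𝒳` and a semi-positive singular metric `φ₀` of `L`
over the central fibre which has no semi-positive extension, not even over a small disc. -/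
theorem result : ∃ (𝒳 : Type) (_ : TopologicalSpace 𝒳) (_ : T2Space 𝒳)
    (_ : SecondCountableTopology 𝒳) (_ : ChartedSpace (ℂ × ℂ × ℂ) 𝒳)
    (_ : IsManifold 𝓘(ℂ, ℂ × ℂ × ℂ) ω 𝒳) (π : 𝒳 → ℂ) (L : LineBundle (ℂ × ℂ × ℂ) 𝒳)
    (φ₀ : L.ι → 𝒳 → EReal),
    IsKahlerFamily (ℂ × ℂ × ℂ) π ∧
    (∃ ψ : L.ι → 𝒳 → EReal, L.IsPosMetric univ ψ) ∧
    L.IsPosMetric (π ⁻¹' {0}) φ₀ ∧
    ∀ r : ℝ, 0 < r → ¬ ∃ φ : L.ι → 𝒳 → EReal, L.IsPosMetric (π ⁻¹' ball 0 r) φ ∧
      ∀ i, ∀ x ∈ L.U i ∩ π ⁻¹' {0}, φ i x = φ₀ i x := by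
  refine ⟨XT, inferInstance, inferInstance, inferInstance, instCS, instMan, tc, LL,
    fun q P => elog (FFs q P), family, ⟨_, metric_total⟩, metric_central, ?_⟩
  rintro r hr ⟨φ, hφ, hext⟩
  exact no_extension hr hφ hext

end Pool.Agent.Results.MP_752b71_an.NoExtension
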